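import Pool.Agent.R693.R.Main

/-!
# Restriction of prime ideals from `U(W)` to `U(W_{≥ -1})` is a bijection

Over a field of characteristic zero, the map `P ↦ P ∩ U(W_{≥ -1})` sends prime ideals of the enveloping
algebra of the Witt algebra to prime ideals of `U(W_{≥ -1})`, and is a bijection between the two sets of
prime ideals (question Q2).

Idea (see `Pool/Agent/R693/W` and `Pool/Agent/R693/R`).  Let `x m = t^m ∂`, and let the ring of shift
operators `z_i` act on functions of several indices.  A nonzero prime ideal `P` contains, for some minimal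
`k + 1` and some `N`, all values of `Δ^N (x (n 0) ⋯ x (n k))`, `Δ` the discriminant of the shifts; put
`η = Δ^N (x (n 0) ⋯ x (n (k-1)))`.  For `u ∈ U(W)` the function `(m, n) ↦ x m u η n` satisfies modulo `P`
the recurrence `∏ (z_m - z_i)^r = 0`, whose extreme coefficients are invertible.
* Primality: if `u U(W_{≥-1}) v ⊆ P`, the recurrences give `u U(W) v a η n ∈ P` for all `a`, hence `u ∈ P`
  or `v ∈ P`.
* Injectivity: if `u η n ∈ P` for all large `n`, then `u ∈ P` (the recurrences in `k` further indices split
  into pieces supported where an index agrees with a `z_i`; a nonzero piece cannot vanish for large `n`).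
  As `u η n` reduces to `U(W_{≥-1})` modulo `P ∩ P'` for large `n`, primes with equal restriction are equal.
* Surjectivity: for a nonzero prime `Q` of `U(W_{≥-1})`, the germs at infinity of the functions `u η` form a
  `U(W_{≥-1})`-module with annihilator `Q` on which all `z_i` are invertible; the recurrences extend the
  action to `W`, and a prime ideal of `U(W)` containing the annihilator and disjoint from the complement of
  `Q` restricts to `Q`.
-/

set_option autoImplicit false

namespace Pool.Agent.Results.MP_fc828e_al.RestrictPrimes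

open Pool.Agent.R693 Pool.Agent.R693.W

attribute [local instance 100] LieRing.ofAssociativeRing

/-- The homomorphism `U(L') → U(L)` of enveloping algebras induced by the inclusion of a Lie
subalgebra. -/
noncomputable def incl (F : Type) [Field F] {L : Type} [LieRing L] [LieAlgebra F L]
    (L' : LieSubalgebra F L) :
    UniversalEnvelopingAlgebra F L' →ₐ[F] UniversalEnvelopingAlgebra F L :=
  UniversalEnvelopingAlgebra.lift F ((UniversalEnvelopingAlgebra.ι F).comp L'.incl)

/-- The restriction `r(I) = I ∩ U(L')` of a two-sided ideal of `U(L)`, as an ideal of `U(L')`. -/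
noncomputable def restriction (F : Type) [Field F] {L : Type} [LieRing L] [LieAlgebra F L]
    (L' : LieSubalgebra F L) (I : TwoSidedIdeal (UniversalEnvelopingAlgebra F L)) :
    TwoSidedIdeal (UniversalEnvelopingAlgebra F L') := TwoSidedIdeal.comap (incl F L') I

/-- A two-sided ideal is prime if it is proper and `a U b ⊆ P` implies `a ∈ P` or `b ∈ P`. -/
def IsPrime {U : Type} [Ring U] (P : TwoSidedIdeal U) : Prop :=
  P ≠ ⊤ ∧ ∀ a b : U, (∀ u : U, a * u * b ∈ P) → a ∈ P ∨ b ∈ P

lemma isPrime_iff {U : Type} [Ring U] (P : TwoSidedIdeal U) : IsPrime P ↔ IsPrimeT P := by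
  constructor
  · rintro ⟨h1, h2⟩
    exact isPrimeT_of_elt (fun h => h1 ((TwoSidedIdeal.one_mem_iff P).mp h)) h2
  · intro h
    exact ⟨h.1, fun a b hab => h.elt hab⟩

section uea
variable {F : Type} [Field F] {L : Type} [LieRing L] [LieAlgebra F L]

lemma iota_comm (x y : L) : UniversalEnvelopingAlgebra.ι F x * UniversalEnvelopingAlgebra.ι F y -
    UniversalEnvelopingAlgebra.ι F y * UniversalEnvelopingAlgebra.ι F x =
      UniversalEnvelopingAlgebra.ι F ⁅x, y⁆ := by
  rw [LieHom.map_lie, LieRing.of_associative_ring_bracket]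

/-- The universal property. -/
lemma exists_hom (c : Module.Basis ℤ F L)
    (hc : ∀ m n : ℤ, ⁅c m, c n⁆ = ((n - m : ℤ) : F) • c (m + n - 1)) (B : Type) [Ring B]
    [Algebra F B] (y : ℤ → B) (hy : IsW F y) :
    ∃ ψ : UniversalEnvelopingAlgebra F L →ₐ[F] B,
      ∀ n, ψ (UniversalEnvelopingAlgebra.ι F (c n)) = y n := by
  set f : L →ₗ[F] B := c.constr F y with hf
  have hfc : ∀ n, f (c n) = y n := fun n => c.constr_basis F y n
  have h1 : ∀ x z : L, f ⁅x, z⁆ = f x * f z - f z * f x := by
    intro x z
    have hx : x ∈ Submodule.span F (Set.range c) := by rw [c.span_eq]; trivial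
    have hz : z ∈ Submodule.span F (Set.range c) := by rw [c.span_eq]; trivial
    induction hx using Submodule.span_induction with
    | mem x hx =>
      obtain ⟨m, rfl⟩ := hx
      induction hz using Submodule.span_induction with
      | mem z hz =>
        obtain ⟨n, rfl⟩ := hz
        rw [hc, map_smul, hfc, hfc, hfc]
        exact (hy m n (m + n - 1) (by
          have h2 : (Lab.one : ℤ) = 1 := rfl
          rw [h2]; ring)).symm
      | zero => rw [lie_zero, map_zero, mul_zero, zero_mul, sub_zero]
      | add y z _ _ hy hz =>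
        rw [lie_add, map_add, hy, hz, map_add, mul_add, add_mul]
        abel
      | smul a y _ hy =>
        rw [lie_smul, map_smul, hy, map_smul, mul_smul_comm, smul_mul_assoc, smul_sub]
    | zero => rw [zero_lie, map_zero, mul_zero, zero_mul, sub_zero]
    | add y z _ _ hy hz =>
      rw [add_lie, map_add, hy, hz, map_add, mul_add, add_mul]
      abel
    | smul a y _ hy =>
      rw [smul_lie, map_smul, hy, map_smul, mul_smul_comm, smul_mul_assoc, smul_sub]
  let g : L →ₗ⁅F⁆ B :=
    { f with
      map_lie' := by
        intro x z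
        rw [LieRing.of_associative_ring_bracket]
        exact h1 x z }
  refine ⟨UniversalEnvelopingAlgebra.lift F g, fun n => ?_⟩
  rw [UniversalEnvelopingAlgebra.lift_ι_apply]
  exact hfc n

end uea

/-- Let `L` be the Witt algebra over a field of characteristic zero, with basis `e n`, `n ∈ ℤ`, and
bracket `[e m, e n] = (n - m) e (m + n)`, and let `L'` be its subalgebra spanned by the `e n` with
`n ≥ -1`.  The map `U(L') → U(L)` is injective, and restriction of ideals to `U(L')` maps the prime
ideals of `U(L)` bijectively onto the prime ideals of `U(L')`. -/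
theorem result (F : Type) [Field F] [CharZero F] (L : Type) [LieRing L] [LieAlgebra F L]
    (e : Module.Basis ℤ F L) (he : ∀ m n : ℤ, ⁅e m, e n⁆ = ((n - m : ℤ) : F) • e (m + n))
    (L' : LieSubalgebra F L)
    (hL' : L'.toSubmodule = Submodule.span F {x | ∃ n : ℤ, -1 ≤ n ∧ x = e n}) :
    Function.Injective (incl F L') ∧
      Set.BijOn (restriction F L') {P | IsPrime P} {Q | IsPrime Q} := by
  classical
  -- the shifted basis
  let eqv : ℤ ≃ ℤ := ⟨fun i => i + 1, fun i => i - 1, fun i => by simp, fun i => by simp⟩
  set c : Module.Basis ℤ F L := e.reindex eqv with hc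
  have hcm : ∀ m, c m = e (m - 1) := fun m => by rw [hc, Module.Basis.reindex_apply]; rfl
  have hcc : ∀ m n : ℤ, ⁅c m, c n⁆ = ((n - m : ℤ) : F) • c (m + n - 1) := by
    intro m n
    rw [hcm, hcm, hcm, he]
    have h1 : m - 1 + (n - 1) = m + n - 1 - 1 := by ring
    rw [h1]
    congr 2
    ring
  -- the basis of the subalgebra
  have hmem : ∀ m : ℕ, c m ∈ L' := by
    intro m
    rw [← LieSubalgebra.mem_toSubmodule, hL', hcm]
    exact Submodule.subset_span ⟨(m : ℤ) - 1, by omega, rfl⟩
  let v : ℕ → L' := fun m => ⟨c m, hmem m⟩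
  have hv : (L'.toSubmodule.subtype : L' →ₗ[F] L) ∘ v = fun m : ℕ => c m := rfl
  have hvLI : LinearIndependent F v := by
    apply LinearIndependent.of_comp (L'.toSubmodule.subtype : L' →ₗ[F] L)
    rw [hv]
    exact c.linearIndependent.comp _ Nat.cast_injective
  have hvsp : ⊤ ≤ Submodule.span F (Set.range v) := by
    rintro x -
    have h1 : (x : L) ∈ Submodule.map (L'.toSubmodule.subtype : L' →ₗ[F] L)
        (Submodule.span F (Set.range v)) := by
      rw [Submodule.map_span, ← Set.range_comp, hv]
      have h2 : (x : L) ∈ L'.toSubmodule := x.2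
      rw [hL'] at h2
      refine Submodule.span_mono ?_ h2
      rintro _ ⟨n, hn, rfl⟩
      refine ⟨(n + 1).toNat, ?_⟩
      beta_reduce
      rw [hcm]
      congr 1
      omega
    obtain ⟨y, hy, hyx⟩ := h1
    have : y = x := Subtype.ext hyx
    rwa [← this]
  let c' : Module.Basis ℕ F L' := Module.Basis.mk hvLI hvsp
  have hc' : ∀ m, c' m = v m := fun m => by
    change Module.Basis.mk hvLI hvsp m = v m
    rw [Module.Basis.mk_apply]
  -- the generators
  set eA : ℤ → UniversalEnvelopingAlgebra F L := fun m => UniversalEnvelopingAlgebra.ι F (c m)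
    with heA
  set eP : ℕ → UniversalEnvelopingAlgebra F L' := fun m => UniversalEnvelopingAlgebra.ι F (c' m)
    with heP
  have hφ : ∀ n : ℕ, incl F L' (eP n) = eA n := by
    intro n
    change incl F L' (UniversalEnvelopingAlgebra.ι F (c' n)) = _
    unfold incl
    rw [UniversalEnvelopingAlgebra.lift_ι_apply, hc']
    rfl
  have hW : IsW F eA := by
    intro m n j hmn
    have h2 : (Lab.one : ℤ) = 1 := rfl
    have h3 : ∀ k : ℤ, (Lab.c k : ℤ) = k := fun k => rfl
    rw [h2] at hmn
    rw [heA]
    beta_reduce
    rw [iota_comm, hcc, map_smul, h3, h3]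
    congr 3
    omega
  -- the bases of the enveloping algebras
  obtain ⟨β, hβ⟩ := PBW.exists_basis F L ℤ c
  obtain ⟨β', hβ'⟩ := PBW.exists_basis F L' ℕ c'
  have hinj : Function.Injective (incl F L') := by
    let g : {l : List ℕ // l.Pairwise (· ≤ ·)} → {l : List ℤ // l.Pairwise (· ≤ ·)} :=
      fun l => ⟨l.1.map (fun n : ℕ => (n : ℤ)), by
        rw [List.pairwise_map]
        exact l.2.imp (fun h => by exact_mod_cast h)⟩
    have hg : Function.Injective g := by
      intro l l' h
      apply Subtype.ext
      have h1 : l.1.map (fun n : ℕ => (n : ℤ)) = l'.1.map (fun n : ℕ => (n : ℤ)) :=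
        congrArg Subtype.val h
      exact List.map_injective_iff.mpr Nat.cast_injective h1
    have h1 : ∀ l, incl F L' (β' l) = β (g l) := by
      intro l
      rw [hβ', hβ, map_list_prod, List.map_map, List.map_map]
      congr 1
      apply List.map_congr_left
      intro n _
      exact hφ n
    have h2 : LinearIndependent F ((incl F L').toLinearMap ∘ β') := by
      have h3 : (incl F L').toLinearMap ∘ β' = β ∘ g := by
        funext l
        exact h1 l
      rw [h3]
      exact β.linearIndependent.comp g hg
    rw [injective_iff_map_eq_zero]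
    intro x hx
    have h4 : Finsupp.linearCombination F ((incl F L').toLinearMap ∘ β') (β'.repr x) = 0 := by
      rw [← Finsupp.apply_linearCombination, Module.Basis.linearCombination_repr]
      exact hx
    have h5 : β'.repr x = 0 := by
      have h6 : Function.Injective (Finsupp.linearCombination F ((incl F L').toLinearMap ∘ β')) :=
        h2
      apply h6
      rw [h4, map_zero]
    rwa [LinearEquiv.map_eq_zero_iff] at h5
  obtain ⟨hd1, hd2, _⟩ := H67OL.t_DOM H67OL.t_PBW2 H67OL.t_SORT F L
  obtain ⟨hd3, hd4, _⟩ := H67OL.t_DOM H67OL.t_PBW2 H67OL.t_SORT F L'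
  obtain ⟨h1, h2, h3⟩ := restrict_bij (incl F L') hφ hinj hW
    (span_of_adjoin (uea_adjoin_basis F c)) (span_of_adjoin (uea_adjoin_basis F c'))
    (fun B _ _ y hy => exists_hom c hcc B y hy)
    (exists_ne (by
      have h4 : (fun l : {l : List ℤ // l.Pairwise (· ≤ ·)} => wd eA l.1) = β := by
        funext l
        rw [hβ]
        rfl
      rw [h4]
      exact β.linearIndependent))
  refine ⟨hinj, ?_, ?_, ?_⟩
  · intro P hP
    exact (isPrime_iff _).mpr (h1 P ((isPrime_iff _).mp hP))
  · intro P hP P' hP' hPP
    exact h2 P P' ((isPrime_iff _).mp hP) ((isPrime_iff _).mp hP') hPP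
  · intro Q hQ
    obtain ⟨P, hP, hPQ⟩ := h3 Q ((isPrime_iff _).mp hQ)
    exact ⟨P, (isPrime_iff _).mpr hP, hPQ⟩

end Pool.Agent.Results.MP_fc828e_al.RestrictPrimes
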